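import Pool.Agent.Q124.BC.Blow

/-!
# Graphs of large minimum degree whose bnr-independence number exceeds their upper broadcast
domination number
-/

set_option autoImplicit false
set_option maxRecDepth 20000

namespace Pool.Agent.Results.MP_99edab_co.LargeMinDegree

open Finset Pool.Agent.Q124.BC

/-- neighbourhoods of the graph, as bit masks -/
def nbr (v : Fin 9) : ℕ := [256, 32, 16, 448, 388, 322, 424, 344, 249].getD v.1 0

/-- the graph on `0, ..., 8` with the 13 edges `0-8 1-5 2-4 3-6 3-7 3-8 4-7 4-8 5-6 5-8 6-7 6-8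
7-8` -/
def base : SimpleGraph (Fin 9) where
  Adj u v := (nbr u).testBit v = true
  symm := ⟨by decide⟩
  loopless := ⟨by decide⟩

instance : DecidableRel base.Adj := fun u v =>
  inferInstanceAs (Decidable ((nbr u).testBit v = true))

/-- the distance table -/
def D (u v : Fin 9) : ℕ :=
  (([[0,3,3,2,2,2,2,2,1],
     [3,0,4,3,3,1,2,3,2],
     [3,4,0,3,1,3,3,2,2],
     [2,3,3,0,2,2,1,1,1],
     [2,3,1,2,0,2,2,1,1],
     [2,1,3,2,2,0,1,2,1],
     [2,2,3,1,2,1,0,1,1],
     [2,3,2,1,1,2,1,0,1],
     [1,2,2,1,1,1,1,1,0]] : List (List ℕ)).getD u.1 []).getD v.1 0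

theorem dist_base (u v : Fin 9) : base.Reachable u v ∧ base.dist u v = D u v :=
  dist_eq_of base D (by decide) (by decide +kernel) (by decide +kernel) u v

theorem dist_eq (u v : Fin 9) : base.dist u v = D u v := (dist_base u v).2

theorem connected_base : base.Connected := ⟨fun u v => (dist_base u v).1⟩

/-- balls and spheres of radius `1, 2, ..., e(v)` as bit masks -/
def row (v : Fin 9) : List (ℕ × ℕ) :=
  ([[(257, 257), (505, 248), (511, 6)], [(34, 34), (354, 320), (507, 153), (511, 4)],
    [(20, 20), (404, 384), (509, 105), (511, 2)], [(456, 456), (505, 49), (511, 6)],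
    [(404, 404), (509, 105), (511, 2)], [(354, 354), (507, 153), (511, 4)],
    [(488, 488), (507, 19), (511, 4)], [(472, 472), (509, 37), (511, 2)],
    [(505, 505), (511, 6)]] : List (List (ℕ × ℕ))).getD v.1 []

theorem row_spec (v : Fin 9) (a : ℕ) (p : ℕ × ℕ) (h : (row v)[a]? = some p) (u : Fin 9) :
    (p.1.testBit u = true ↔ D u v ≤ a + 1) ∧
      (p.2.testBit u = true ↔ D u v = a + 1 ∨ (a = 0 ∧ D u v = 0)) := by
  have hlen : ∀ v, (row v).length ≤ 4 := by decide
  have ha : a < (row v).length := (List.getElem?_eq_some_iff.1 h).1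
  have ha' : a < 4 := lt_of_lt_of_le ha (hlen v)
  have key : ∀ (v u : Fin 9) (a : Fin 4) (q : ℕ × ℕ), q ∈ (row v)[a.1]? →
      (q.1.testBit u = true ↔ D u v ≤ a.1 + 1) ∧
      (q.2.testBit u = true ↔ D u v = a.1 + 1 ∨ (a.1 = 0 ∧ D u v = 0)) := by
    decide +kernel
  exact key v u ⟨a, ha'⟩ p h

theorem ecc_eq (v : Fin 9) : ecc base v = (row v).length := by
  rw [ecc_eq_of base D dist_eq]
  have : ∀ v : Fin 9, univ.sup (fun u => D u v) = (row v).length := by decide +kernel
  exact this v

theorem search : dfs row (2 ^ 9 - 1) 4 (List.finRange 9) 0 0 0 [] = true := by decide +kernel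

theorem upper (m : ℕ) : upperBroadcastNumber (blow base m) ≤ 4 := by
  apply upper_blow base connected_base
  intro f h1 h2 h3
  refine sum_le_of_dfs D row 4 row_spec search f ?_ ?_ ?_
  · intro v; rw [← ecc_eq]; exact h1 v
  · simpa only [dist_eq] using h2
  · simpa only [dist_eq] using h3

/-- the broadcast of weight `5` -/
def f (v : Fin 9) : ℕ := [1, 2, 2, 0, 0, 0, 0, 0, 0].getD v.1 0

theorem lower_bound (m : ℕ) : 5 ≤ bnrNumber (blow base m) := by
  have hs : ∑ v, f v = 5 := by decide
  rw [← hs]
  apply lower_blow base connected_base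
  · intro v
    rw [ecc_eq]
    have : ∀ v, f v ≤ (row v).length := by decide
    exact this v
  · have : ∀ u v : Fin 9, u ≠ v → ∀ x, (1 ≤ f u ∧ D x u ≤ f u) → (1 ≤ f v ∧ D x v ≤ f v) →
        D x u = f u ∧ D x v = f v := by decide +kernel
    simpa only [dist_eq] using this
  · have : ∀ v : Fin 9, 1 ≤ f v → ∃ u, (D u v = f v ∨ (f v = 1 ∧ D u v = 0)) ∧
        ∀ w, w ≠ v → ¬ (1 ≤ f w ∧ D u w ≤ f w) := by decide +kernel
    simpa only [dist_eq] using this

theorem exists_adj : ∀ v : Fin 9, ∃ w, base.Adj v w := by decide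

open Classical in
/-- the minimum degree is at least `2m + 1` -/
theorem degree_ge (m : ℕ) (a : Fin 9 × Fin (m + 1)) :
    2 * m + 1 ≤ (blow base m).degree a := by
  obtain ⟨w, hw⟩ := exists_adj a.1
  rw [← SimpleGraph.card_neighborFinset_eq_degree]
  have hinj1 : Function.Injective (fun j : Fin (m + 1) => ((w, j) : Fin 9 × Fin (m + 1))) := by
    intro i j h; exact congrArg Prod.snd h
  have hinj2 : Function.Injective (fun j : Fin (m + 1) => ((a.1, j) : Fin 9 × Fin (m + 1))) := by
    intro i j h; exact congrArg Prod.snd h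
  have hdisj : Disjoint (univ.image (fun j : Fin (m + 1) => ((w, j) : Fin 9 × Fin (m + 1))))
      ((univ.erase a.2).image (fun j : Fin (m + 1) => ((a.1, j) : Fin 9 × Fin (m + 1)))) := by
    rw [Finset.disjoint_left]
    intro x hx hy
    rw [Finset.mem_image] at hx hy
    obtain ⟨i, -, rfl⟩ := hx
    obtain ⟨j, -, hj⟩ := hy
    have : a.1 = w := congrArg Prod.fst hj
    rw [this] at hw
    exact base.loopless.irrefl _ hw
  have hcard : (univ.image (fun j : Fin (m + 1) => ((w, j) : Fin 9 × Fin (m + 1))) ∪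
      (univ.erase a.2).image (fun j : Fin (m + 1) => ((a.1, j) : Fin 9 × Fin (m + 1)))).card
      = 2 * m + 1 := by
    rw [Finset.card_union_of_disjoint hdisj, Finset.card_image_of_injective _ hinj1,
      Finset.card_image_of_injective _ hinj2, Finset.card_erase_of_mem (mem_univ _)]
    simp
    omega
  rw [← hcard]
  apply Finset.card_le_card
  intro x hx
  rw [Finset.mem_union, Finset.mem_image, Finset.mem_image] at hx
  rw [SimpleGraph.mem_neighborFinset, blow_adj]
  rcases hx with ⟨j, -, rfl⟩ | ⟨j, hj, rfl⟩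
  · exact Or.inl hw
  · right
    refine ⟨rfl, ?_⟩
    rw [Finset.mem_erase] at hj
    intro h
    exact hj.1 (congrArg Prod.snd h).symm

open Classical in
/-- **Main result.** For every `d` there is a connected finite graph of minimum degree at least `d`
with `Γ_b(G) < α_bnr(G)`. -/
theorem result (d : ℕ) : ∃ (V : Type) (_ : Fintype V) (G : SimpleGraph V), G.Connected ∧
    d ≤ G.minDegree ∧ upperBroadcastNumber G < bnrNumber G := by
  refine ⟨Fin 9 × Fin (d + 1), inferInstance, blow base d, connected_blow base connected_base d,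
    ?_, lt_of_le_of_lt (upper d) (lower_bound d)⟩
  apply SimpleGraph.le_minDegree_of_forall_le_degree
  intro a
  have := degree_ge d a
  omega

end Pool.Agent.Results.MP_99edab_co.LargeMinDegree
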